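import Pool.Agent.W96.CL.Stm
set_option autoImplicit false

open Polynomial Filter Topology MeasureTheory Set

namespace W96CL
namespace Q119

/-- the imaginary part of the kernel -/
noncomputable def KI (a β : ℝ) : ℝ :=
  -(3 / (4 * Real.pi)) * (Real.sinh a * Real.sin β / (Real.sinh a ^ 2 + Real.cos β ^ 2))

lemma kc_im (x b : ℝ) : (kc ((x : ℂ) + b * Complex.I)).im = KI (3 * x / 2) (3 * b / 2) := by
  have h1 : Complex.cosh (3 * ((x : ℂ) + b * Complex.I) / 2) =
      (Real.cosh (3 * x / 2) * Real.cos (3 * b / 2) : ℝ) +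
        (Real.sinh (3 * x / 2) * Real.sin (3 * b / 2) : ℝ) * Complex.I := by
    rw [show 3 * ((x : ℂ) + b * Complex.I) / 2 = ((3 * x / 2 : ℝ) : ℂ) + ((3 * b / 2 : ℝ) : ℂ) * Complex.I by
      push_cast; ring]
    rw [Complex.cosh_add, Complex.cosh_mul_I, Complex.sinh_mul_I]
    push_cast
    ring
  unfold kc KI
  rw [h1]
  set A := Real.cosh (3 * x / 2) * Real.cos (3 * b / 2) with hA
  set B := Real.sinh (3 * x / 2) * Real.sin (3 * b / 2) with hB
  have hn : Complex.normSq ((A : ℂ) + B * Complex.I) = Real.sinh (3 * x / 2) ^ 2 + Real.cos (3 * b / 2) ^ 2 := by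
    rw [Complex.normSq_add_mul_I, hA, hB, mul_pow, mul_pow, Real.cosh_sq, Real.sin_sq]
    ring
  have h2 : (3 : ℂ) / (4 * Real.pi * ((A : ℂ) + B * Complex.I)) =
      ((3 / (4 * Real.pi) : ℝ) : ℂ) * ((A : ℂ) + B * Complex.I)⁻¹ := by
    push_cast
    rw [div_mul_eq_div_div, div_eq_mul_inv (3 / (4 * (Real.pi : ℂ)))]
  rw [h2, Complex.im_ofReal_mul, Complex.inv_im, hn]
  simp
  ring

lemma KI_mul (a β : ℝ) : |KI a β| * |Real.sinh a| ≤ 3 / (4 * Real.pi) := by
  have hpi := Real.pi_pos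
  unfold KI
  rw [abs_mul, abs_neg, abs_of_pos (show 0 < 3 / (4 * Real.pi) by positivity), mul_assoc]
  apply mul_le_of_le_one_right (by positivity)
  rw [← abs_mul, div_mul_eq_mul_div, abs_div, abs_of_nonneg (show 0 ≤ Real.sinh a ^ 2 + Real.cos β ^ 2 by positivity)]
  apply div_le_one_of_le₀ _ (by positivity)
  rw [show Real.sinh a * Real.sin β * Real.sinh a = Real.sinh a ^ 2 * Real.sin β by ring, abs_mul,
    abs_of_nonneg (sq_nonneg (Real.sinh a))]
  have h1 : Real.sinh a ^ 2 * |Real.sin β| ≤ Real.sinh a ^ 2 :=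
    mul_le_of_le_one_right (sq_nonneg _) (Real.abs_sin_le_one β)
  nlinarith [sq_nonneg (Real.cos β)]

lemma KI_half (v z0 : ℝ) : KI (3 * (z0 - v) / 2) (Real.pi / 2) =
    3 / (4 * Real.pi) * (1 / Real.sinh (3 * (v - z0) / 2)) := by
  unfold KI
  rw [Real.sin_pi_div_two, Real.cos_pi_div_two,
    show 3 * (z0 - v) / 2 = -(3 * (v - z0) / 2) by ring, Real.sinh_neg]
  by_cases h : Real.sinh (3 * (v - z0) / 2) = 0
  · simp [h]
  · field_simp
    ring

/-- sinh dominates -/
lemma sinh_lower {δ y : ℝ} (hδ : 0 < δ) (hy : δ ≤ |y|) :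
    Real.exp |y| * ((1 - Real.exp (-(2 * δ))) / 2) ≤ |Real.sinh (3 * y / 2)| := by
  have h1 : |Real.sinh (3 * y / 2)| = Real.sinh (3 * |y| / 2) := by
    rw [Real.abs_sinh]
    congr 1
    rw [abs_div, abs_mul]
    norm_num
  rw [h1]
  set t := |y| with ht
  have ht0 : 0 < t := lt_of_lt_of_le hδ hy
  have h2 : Real.sinh t ≤ Real.sinh (3 * t / 2) := Real.sinh_le_sinh.2 (by linarith)
  refine le_trans ?_ h2
  rw [Real.sinh_eq]
  have h3 : Real.exp (-t) = Real.exp t * Real.exp (-(2 * t)) := by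
    rw [← Real.exp_add]; ring_nf
  have h4 : Real.exp (-(2 * t)) ≤ Real.exp (-(2 * δ)) := Real.exp_le_exp.2 (by linarith)
  rw [h3]
  have h5 := Real.exp_pos t
  nlinarith

/-- the basic bound -/
lemma G_bound {G : ℝ → ℝ} {z0 M : ℝ} (hM : ∀ v, |G v| ≤ M) (h0 : G z0 = 0)
    (hd : DifferentiableAt ℝ G z0) :
    ∃ K : ℝ, 0 ≤ K ∧ ∀ v, |G v| ≤ K * (|Real.sinh (3 * (v - z0) / 2)| * Real.exp (-|v - z0|)) := by
  have hO := hd.hasDerivAt.isBigO_sub
  rw [h0] at hO
  simp only [sub_zero] at hO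
  obtain ⟨c, hc0, hc⟩ := hO.exists_pos
  rw [Asymptotics.IsBigOWith] at hc
  rw [Metric.eventually_nhds_iff] at hc
  obtain ⟨ε, hε, hcε⟩ := hc
  have hM0 : 0 ≤ M := (abs_nonneg _).trans (hM 0)
  set δ := ε / 2 with hδ
  have hδ0 : 0 < δ := by positivity
  set m := (1 - Real.exp (-(2 * δ))) / 2 with hm
  have hm0 : 0 < m := by
    have : Real.exp (-(2 * δ)) < 1 := by
      rw [Real.exp_lt_one_iff]; linarith
    rw [hm]; linarith
  refine ⟨c * Real.exp δ + M / m, by positivity, fun v => ?_⟩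
  rcases lt_or_ge |v - z0| δ with h | h
  · have h1 : |G v| ≤ c * |v - z0| := by
      have := @hcε v (by rw [Real.dist_eq]; linarith)
      simpa using this
    have h2 : |v - z0| ≤ |Real.sinh (3 * (v - z0) / 2)| := by
      rw [Real.abs_sinh]
      refine le_trans ?_ (Real.self_le_sinh_iff.2 (abs_nonneg _))
      rw [abs_div, abs_mul, abs_of_pos (show (0:ℝ) < 3 by norm_num), abs_of_pos (show (0:ℝ) < 2 by norm_num)]
      linarith [abs_nonneg (v - z0)]
    have h3 : 1 ≤ Real.exp δ * Real.exp (-|v - z0|) := by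
      rw [← Real.exp_add]
      apply Real.one_le_exp
      linarith
    calc |G v| ≤ c * |Real.sinh (3 * (v - z0) / 2)| := h1.trans (mul_le_mul_of_nonneg_left h2 hc0.le)
      _ ≤ c * |Real.sinh (3 * (v - z0) / 2)| * (Real.exp δ * Real.exp (-|v - z0|)) :=
        le_mul_of_one_le_right (by positivity) h3
      _ = (c * Real.exp δ) * (|Real.sinh (3 * (v - z0) / 2)| * Real.exp (-|v - z0|)) := by ring
      _ ≤ _ := by
        apply mul_le_mul_of_nonneg_right _ (by positivity)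
        have : 0 ≤ M / m := by positivity
        linarith
  · have h1 := sinh_lower hδ0 h
    rw [← hm] at h1
    have h2 : 1 ≤ (1 / m) * (|Real.sinh (3 * (v - z0) / 2)| * Real.exp (-|v - z0|)) := by
      have h3 : m ≤ |Real.sinh (3 * (v - z0) / 2)| * Real.exp (-|v - z0|) := by
        calc m = (Real.exp |v - z0| * m) * Real.exp (-|v - z0|) := by
              rw [mul_assoc, mul_comm m, ← mul_assoc, ← Real.exp_add]; simp
          _ ≤ _ := mul_le_mul_of_nonneg_right h1 (Real.exp_pos _).le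
      rw [one_div, inv_mul_eq_div, le_div_iff₀ hm0]
      linarith
    calc |G v| ≤ M := hM v
      _ ≤ M * ((1 / m) * (|Real.sinh (3 * (v - z0) / 2)| * Real.exp (-|v - z0|))) :=
        le_mul_of_one_le_right hM0 h2
      _ = M / m * (|Real.sinh (3 * (v - z0) / 2)| * Real.exp (-|v - z0|)) := by ring
      _ ≤ _ := by
        apply mul_le_mul_of_nonneg_right _ (by positivity)
        have : 0 ≤ c * Real.exp δ := by positivity
        linarith

lemma integrable_exp_abs (z0 : ℝ) : Integrable (fun v : ℝ => Real.exp (-|v - z0|)) := by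
  have h0 : (∫ x : ℝ, Real.exp (-|x|)) = 2 := by
    have h := integral_comp_abs (f := fun x : ℝ => Real.exp (-x))
    rw [h, integral_exp_neg_Ioi_zero, mul_one]
  have h1 : Integrable (fun v : ℝ => Real.exp (-|v|)) := by
    by_contra h
    have h2 := integral_undef h
    rw [h0] at h2
    norm_num at h2
  exact h1.comp_sub_right z0

lemma KI_G_le {G : ℝ → ℝ} {z0 K : ℝ}
    (hK : ∀ v, |G v| ≤ K * (|Real.sinh (3 * (v - z0) / 2)| * Real.exp (-|v - z0|))) (hK0 : 0 ≤ K)
    (v β : ℝ) : |KI (3 * (z0 - v) / 2) β * G v| ≤ 3 / (4 * Real.pi) * K * Real.exp (-|v - z0|) := by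
  have h1 := KI_mul (3 * (z0 - v) / 2) β
  have h2 : |Real.sinh (3 * (z0 - v) / 2)| = |Real.sinh (3 * (v - z0) / 2)| := by
    rw [show 3 * (z0 - v) / 2 = -(3 * (v - z0) / 2) by ring, Real.sinh_neg, abs_neg]
  rw [h2] at h1
  rw [abs_mul]
  calc |KI (3 * (z0 - v) / 2) β| * |G v|
      ≤ |KI (3 * (z0 - v) / 2) β| * (K * (|Real.sinh (3 * (v - z0) / 2)| * Real.exp (-|v - z0|))) :=
        mul_le_mul_of_nonneg_left (hK v) (abs_nonneg _)
    _ = (|KI (3 * (z0 - v) / 2) β| * |Real.sinh (3 * (v - z0) / 2)|) * (K * Real.exp (-|v - z0|)) := by ring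
    _ ≤ 3 / (4 * Real.pi) * (K * Real.exp (-|v - z0|)) :=
        mul_le_mul_of_nonneg_right h1 (by positivity)
    _ = _ := by ring

/-- continuity in the height -/
lemma cont_I {G : ℝ → ℝ} {z0 K : ℝ} (hG : Continuous G)
    (hK : ∀ v, |G v| ≤ K * (|Real.sinh (3 * (v - z0) / 2)| * Real.exp (-|v - z0|))) (hK0 : 0 ≤ K) :
    Continuous (fun β : ℝ => ∫ v : ℝ, KI (3 * (z0 - v) / 2) β * G v) := by
  apply continuous_of_dominated (bound := fun v => 3 / (4 * Real.pi) * K * Real.exp (-|v - z0|))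
  · intro β
    apply Measurable.aestronglyMeasurable
    unfold KI
    fun_prop
  · intro β
    refine Eventually.of_forall fun v => ?_
    rw [Real.norm_eq_abs]
    exact KI_G_le hK hK0 v β
  · exact (integrable_exp_abs z0).const_mul _
  · have h0 : ∀ᵐ v : ℝ, v ≠ z0 := by
      rw [ae_iff]
      simp
    filter_upwards [h0] with v hv
    have hs : Real.sinh (3 * (z0 - v) / 2) ≠ 0 := by
      rw [Ne, Real.sinh_eq_zero]
      intro h
      apply hv
      linarith
    apply Continuous.mul _ continuous_const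
    unfold KI
    apply Continuous.mul continuous_const
    apply Continuous.div (by fun_prop) (by fun_prop)
    intro β
    have := sq_nonneg (Real.cos β)
    have h2 : 0 < Real.sinh (3 * (z0 - v) / 2) ^ 2 := by positivity
    positivity

lemma int_q {G : ℝ → ℝ} {z0 K : ℝ} (hG : Continuous G)
    (hK : ∀ v, |G v| ≤ K * (|Real.sinh (3 * (v - z0) / 2)| * Real.exp (-|v - z0|))) (hK0 : 0 ≤ K) :
    Integrable (fun v : ℝ => G v / Real.sinh (3 * (v - z0) / 2)) := by
  apply ((integrable_exp_abs z0).const_mul K).mono'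
  · apply Measurable.aestronglyMeasurable
    fun_prop
  · refine Eventually.of_forall fun v => ?_
    rw [Real.norm_eq_abs, abs_div]
    apply div_le_of_le_mul₀ (abs_nonneg _) (by positivity)
    calc |G v| ≤ _ := hK v
      _ = _ := by ring

/-- the integral is nonnegative -/
lemma int_nonneg {G : ℝ → ℝ} {z0 K : ℝ} (hG : Continuous G) (hz : 0 < z0)
    (hK : ∀ v, |G v| ≤ K * (|Real.sinh (3 * (v - z0) / 2)| * Real.exp (-|v - z0|))) (hK0 : 0 ≤ K)
    (hev : ∀ v, G (-v) = G v) (hneg : ∀ v, |v| < z0 → G v ≤ 0) (hpos : ∀ v, z0 < |v| → 0 ≤ G v) :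
    0 ≤ ∫ v : ℝ, G v / Real.sinh (3 * (v - z0) / 2) := by
  set q : ℝ → ℝ := fun v => G v / Real.sinh (3 * (v - z0) / 2) with hq
  have hi : Integrable q := int_q hG hK hK0
  have h1 : ∫ v, q (-v) = ∫ v, q v := integral_neg_eq_self q volume
  have h2 : ∫ v, (q v + q (-v)) = 2 * ∫ v, q v := by
    rw [integral_add hi hi.comp_neg, h1]; ring
  have h0 : G z0 = 0 := by
    have := hK z0
    simp at this
    exact this
  have h3 : 0 ≤ ∫ v, (q v + q (-v)) := by
    apply integral_nonneg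
    intro v
    show 0 ≤ q v + q (-v)
    rw [hq]
    simp only
    rw [hev, show 3 * (-v - z0) / 2 = -(3 * (v + z0) / 2) by ring, Real.sinh_neg, div_neg]
    have hlt : Real.sinh (3 * (v - z0) / 2) < Real.sinh (3 * (v + z0) / 2) :=
      Real.sinh_lt_sinh.2 (by linarith)
    set a := Real.sinh (3 * (v - z0) / 2) with ha
    set b := Real.sinh (3 * (v + z0) / 2) with hb
    have key : G v / a + -(G v / b) = G v * (1 / a - 1 / b) := by ring
    rw [key]
    rcases lt_trichotomy |v| z0 with h | h | h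
    · have h4 := abs_lt.1 h
      have ha0 : a < 0 := Real.sinh_neg_iff.2 (by linarith)
      have hb0 : 0 < b := Real.sinh_pos_iff.2 (by linarith)
      have h5 : 1 / a < 0 := one_div_neg.2 ha0
      have h6 : 0 < 1 / b := one_div_pos.2 hb0
      exact mul_nonneg_of_nonpos_of_nonpos (hneg v h) (by linarith)
    · have hG0 : G v = 0 := by
        rcases eq_or_eq_neg_of_abs_eq h with h | h
        · rw [h, h0]
        · rw [h, hev, h0]
      rw [hG0, zero_mul]
    · apply mul_nonneg (hpos v h)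
      rw [lt_abs] at h
      rcases h with h | h
      · have ha0 : 0 < a := Real.sinh_pos_iff.2 (by linarith)
        have := one_div_le_one_div_of_le ha0 hlt.le
        linarith
      · have hb0 : b < 0 := Real.sinh_neg_iff.2 (by linarith)
        have := one_div_le_one_div_of_neg_of_le hb0 hlt.le
        linarith
  rw [h2] at h3
  linarith

/-- the topological argument -/
lemma top_arg {A : ℝ → ℝ} {z0 : ℝ} (hc : ContinuousOn A (Ici z0)) (hlim : Tendsto A atTop (𝓝 0))
    (hpos : ∀ u, z0 < u → 0 < Real.cos (A u)) (h0 : Real.cos (A z0) = 0) (hnn : 0 ≤ A z0) :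
    A z0 = Real.pi / 2 := by
  have hpi := Real.pi_pos
  have h1 : ∀ u, z0 < u → A u < Real.pi / 2 := by
    intro u hu
    by_contra hcon
    rw [not_lt] at hcon
    have hev := hlim.eventually (gt_mem_nhds (show (0 : ℝ) < Real.pi / 2 by positivity))
    obtain ⟨w, hw, hwu⟩ := (hev.and (eventually_ge_atTop u)).exists
    have hmem : Real.pi / 2 ∈ Icc (A w) (A u) := ⟨hw.le, hcon⟩
    have hS : IsPreconnected (Icc u w) := isPreconnected_Icc
    have hsub : Icc u w ⊆ Ici z0 := fun x hx => le_trans hu.le hx.1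
    obtain ⟨x, hx, hxe⟩ := hS.intermediate_value (right_mem_Icc.2 hwu) (left_mem_Icc.2 hwu)
      (hc.mono hsub) hmem
    have := hpos x (lt_of_lt_of_le hu hx.1)
    rw [hxe, Real.cos_pi_div_two] at this
    exact lt_irrefl _ this
  have h2 : A z0 ≤ Real.pi / 2 := by
    have ht : Tendsto A (𝓝[>] z0) (𝓝 (A z0)) :=
      ((hc z0 (self_mem_Ici)).mono Ioi_subset_Ici_self)
    exact le_of_tendsto ht (by
      filter_upwards [self_mem_nhdsWithin] with u hu
      exact (h1 u hu).le)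
  rcases lt_or_eq_of_le h2 with h | h
  · have := Real.cos_pos_of_mem_Ioo ⟨by linarith, h⟩
    rw [h0] at this
    exact absurd this (lt_irrefl _)
  · exact h

lemma tanh_quarter (u : ℝ) : Complex.tanh (3 * ((u : ℂ) + Real.pi / 3 * Complex.I) / 4) =
    Complex.exp ((Real.arccos (Real.tanh (3 * u / 2)) : ℝ) * Complex.I) := by
  have hx : 3 * ((u : ℂ) + Real.pi / 3 * Complex.I) / 4 =
      ((3 * u / 4 : ℝ) : ℂ) + ((Real.pi / 4 : ℝ) : ℂ) * Complex.I := by
    push_cast; ring
  have hu : 3 * u / 2 = 2 * (3 * u / 4) := by ring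
  rw [hx, hu]
  set x := 3 * u / 4 with hxd
  have hc2 : 0 < Real.cosh (2 * x) := Real.cosh_pos _
  have hT1 : Real.tanh (2 * x) ≤ 1 := (Real.tanh_lt_one _).le
  have hT0 : -1 ≤ Real.tanh (2 * x) := (Real.neg_one_lt_tanh _).le
  have hsin : Real.sin (Real.arccos (Real.tanh (2 * x))) = 1 / Real.cosh (2 * x) := by
    rw [Real.sin_arccos, Real.tanh_eq_sinh_div_cosh]
    rw [show 1 - (Real.sinh (2 * x) / Real.cosh (2 * x)) ^ 2 = (1 / Real.cosh (2 * x)) ^ 2 by
      field_simp
      rw [Real.cosh_sq]; ring]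
    exact Real.sqrt_sq (by positivity)
  have hcos : Real.cos (Real.arccos (Real.tanh (2 * x))) = Real.sinh (2 * x) / Real.cosh (2 * x) := by
    rw [Real.cos_arccos hT0 hT1, Real.tanh_eq_sinh_div_cosh]
  rw [Complex.exp_mul_I, ← Complex.ofReal_cos, ← Complex.ofReal_sin, hsin, hcos]
  rw [Complex.tanh_eq_sinh_div_cosh, Complex.sinh_add, Complex.cosh_add, Complex.sinh_mul_I,
    Complex.cosh_mul_I, ← Complex.ofReal_cos, ← Complex.ofReal_sin, Real.cos_pi_div_four,
    Real.sin_pi_div_four, ← Complex.ofReal_sinh, ← Complex.ofReal_cosh]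
  have hs2 : Real.sinh (2 * x) = 2 * Real.sinh x * Real.cosh x := Real.sinh_two_mul x
  have hcc2 : Real.cosh (2 * x) = Real.cosh x ^ 2 + Real.sinh x ^ 2 := Real.cosh_two_mul x
  have hcs : Real.cosh x ^ 2 = Real.sinh x ^ 2 + 1 := Real.cosh_sq x
  have hr2 : (Real.sqrt 2 / 2 : ℝ) ≠ 0 := by positivity
  set r := (Real.sqrt 2 / 2 : ℝ) with hr
  have hden : ((Real.cosh x : ℂ) * r + (Real.sinh x : ℂ) * (r * Complex.I)) ≠ 0 := by
    intro h
    have h3 := congrArg Complex.re h
    simp at h3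
    rcases h3 with h3 | h3
    · exact (Real.cosh_pos x).ne' h3
    · exact hr2 h3
  have hden2 : ((Real.cosh (2 * x) : ℝ) : ℂ) ≠ 0 := by exact_mod_cast hc2.ne'
  rw [div_eq_iff hden]
  rw [hs2, hcc2] 
  have hden3 : ((Real.cosh x ^ 2 + Real.sinh x ^ 2 : ℝ) : ℂ) ≠ 0 := by
    rw [← hcc2]; exact hden2
  push_cast at hden3 ⊢
  have hcs' : (Real.cosh x : ℂ) ^ 2 = (Real.sinh x : ℂ) ^ 2 + 1 := by exact_mod_cast hcs
  push_cast at hcs'
  field_simp
  linear_combination (r : ℂ) * ((Complex.cosh x * Complex.I - Complex.sinh x) * hcs' - Complex.sinh x * Complex.I_sq)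

lemma RR_exp {θ u : ℝ} (hu : 0 < u) :
    RR θ ((u : ℂ) + Real.pi / 3 * Complex.I) =
    Complex.exp (((2 * Real.arctan (Real.cos (3 * θ / 2) / Real.sinh (3 * u / 2)) : ℝ) : ℂ) * Complex.I) := by
  set S := Real.sinh (3 * u / 2) with hS
  have hS0 : 0 < S := Real.sinh_pos_iff.2 (by linarith)
  set C := Real.cos (3 * θ / 2) with hC
  have h1 : Complex.cosh (3 * ((u : ℂ) + Real.pi / 3 * Complex.I) / 2) = (S : ℂ) * Complex.I := by
    rw [show 3 * ((u : ℂ) + Real.pi / 3 * Complex.I) / 2 =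
      ((3 * u / 2 : ℝ) : ℂ) + ((Real.pi / 2 : ℝ) : ℂ) * Complex.I by push_cast; ring]
    rw [Complex.cosh_add, Complex.cosh_mul_I, Complex.sinh_mul_I, ← Complex.ofReal_cos,
      ← Complex.ofReal_sin, Real.cos_pi_div_two, Real.sin_pi_div_two, hS]
    push_cast
    ring
  unfold RR
  rw [h1, ← hC]
  have hx : 0 < 1 + (C / S) ^ 2 := by positivity
  have hsq : 0 < Real.sqrt (1 + (C / S) ^ 2) := Real.sqrt_pos.2 hx
  have h2 : Complex.exp (((2 * Real.arctan (C / S) : ℝ) : ℂ) * Complex.I) =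
      ((1 + (C / S : ℝ) * Complex.I) / Real.sqrt (1 + (C / S) ^ 2)) ^ 2 := by
    rw [show (((2 * Real.arctan (C / S) : ℝ) : ℂ) * Complex.I) =
      (2 : ℕ) * (((Real.arctan (C / S) : ℝ) : ℂ) * Complex.I) by push_cast; ring, Complex.exp_nat_mul]
    congr 1
    rw [Complex.exp_mul_I, ← Complex.ofReal_cos, ← Complex.ofReal_sin, Real.cos_arctan,
      Real.sin_arctan]
    push_cast
    ring
  rw [h2, div_pow]
  have h3 : ((Real.sqrt (1 + (C / S) ^ 2) : ℝ) : ℂ) ^ 2 = 1 + (C / S : ℂ) ^ 2 := by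
    rw [← Complex.ofReal_pow, Real.sq_sqrt hx.le]
    push_cast
    ring
  rw [h3]
  have hSC : (S : ℂ) ≠ 0 := by exact_mod_cast hS0.ne'
  have hden : (S : ℂ) * Complex.I + C ≠ 0 := by
    intro h
    have := congrArg Complex.im h
    simp at this
    exact hS0.ne' this
  have hden2 : (1 : ℂ) + (C / S) ^ 2 ≠ 0 := by
    have : ((1 + (C / S) ^ 2 : ℝ) : ℂ) ≠ 0 := by exact_mod_cast hx.ne'
    push_cast at this
    exact this
  rw [div_eq_div_iff hden hden2]
  push_cast
  field_simp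
  linear_combination (-((S : ℂ) * Complex.I * C ^ 2) - 2 * S ^ 2 * C - C ^ 3) * Complex.I_sq

end Q119
end W96CL
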