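import Pool.Agent.W96.CL.Stm
set_option autoImplicit false

open Polynomial Filter Topology MeasureTheory Set

namespace W96CL
namespace Q119

/-- a continuous function with values in `2πℤ` on a preconnected set is constant -/
lemma const_two_pi {S : Set ℝ} (hS : IsPreconnected S) {D : ℝ → ℝ} (hc : ContinuousOn D S)
    (hD : ∀ b ∈ S, ∃ k : ℤ, D b = 2 * Real.pi * k) {b0 b1 : ℝ} (h0 : b0 ∈ S) (h1 : b1 ∈ S) :
    D b0 = D b1 := by
  have key : ∀ {b0 b1 : ℝ}, b0 ∈ S → b1 ∈ S → ¬ D b0 < D b1 := by
    intro b0 b1 h0 h1 hlt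
    obtain ⟨k0, hk0⟩ := hD b0 h0
    obtain ⟨k1, hk1⟩ := hD b1 h1
    have hpi := Real.pi_pos
    have hk : k0 < k1 := by
      have : (k0 : ℝ) < k1 := by
        rw [hk0, hk1] at hlt
        have := lt_of_mul_lt_mul_left hlt (by positivity)
        exact this
      exact_mod_cast this
    have hk' : (k0 : ℝ) + 1 ≤ k1 := by exact_mod_cast hk
    have hmem : 2 * Real.pi * k0 + Real.pi ∈ Icc (D b0) (D b1) := by
      constructor
      · rw [hk0]; linarith
      · rw [hk1]; nlinarith
    obtain ⟨b, hb, hbe⟩ := hS.intermediate_value h0 h1 hc hmem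
    obtain ⟨k, hk⟩ := hD b hb
    rw [hk] at hbe
    have h2 : 2 * (k : ℝ) = 2 * k0 + 1 := by
      have : Real.pi * (2 * (k : ℝ)) = Real.pi * (2 * k0 + 1) := by linarith
      exact mul_left_cancel₀ hpi.ne' this
    have h3 : 2 * k = 2 * k0 + 1 := by exact_mod_cast h2
    omega
  rcases lt_trichotomy (D b0) (D b1) with h | h | h
  · exact absurd h (key h0 h1)
  · exact h
  · exact absurd h (key h1 h0)

lemma exp_eq_im {w w' : ℂ} (h : Complex.exp w = Complex.exp w') :
    ∃ k : ℤ, w.im - w'.im = 2 * Real.pi * k := by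
  rw [Complex.exp_eq_exp_iff_exists_int] at h
  obtain ⟨n, hn⟩ := h
  refine ⟨n, ?_⟩
  rw [hn]
  simp
  ring

/-- the continuous logarithm in the strip -/
lemma exists_log {F : ℂ → ℂ} {L : ℝ} (hF : Strip F L) :
    ∃ f : ℂ → ℂ, ContinuousOn f {z : ℂ | |z.im| ≤ Real.pi / 3} ∧
      (∀ z : ℂ, |z.im| ≤ Real.pi / 3 → Complex.exp (f z) = F z) ∧ (∀ u : ℝ, (f u).im = 0) ∧
      Tendsto (fun u : ℝ => (f (u + Real.pi / 3 * Complex.I)).im) atTop (𝓝 0) := by
  obtain ⟨a, ha, han⟩ := hF.an
  set U : Set ℂ := {z : ℂ | |z.im| < a} with hU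
  have hUo : IsOpen U := isOpen_lt (continuous_abs.comp Complex.continuous_im) continuous_const
  have hUc : Convex ℝ U := by
    have : U = Complex.imLm ⁻¹' (Ioo (-a) a) := by
      ext z
      simp [hU, abs_lt]
    rw [this]
    exact (convex_Ioo (-a) a).linear_preimage Complex.imLm
  have hpi := Real.pi_pos
  have ha0 : 0 < a := by linarith [Real.pi_pos]
  have hne : U.Nonempty := ⟨0, by simp [hU, ha0]⟩
  have hc : ContractibleSpace U := hUc.contractibleSpace hne
  have hs : IsSimplyConnected U := by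
    unfold IsSimplyConnected
    infer_instance
  obtain ⟨g, hgc, hg⟩ := Complex.exists_continuousOn_eqOn_exp_comp hs hUo
    (fun z hz => (han z hz).1.continuousAt.continuousWithinAt) (by
    rintro ⟨z, hz, h0⟩
    exact (han z hz).2 h0)
  have hg' : ∀ z ∈ U, Complex.exp (g z) = F z := fun z hz => hg hz
  -- F real on the line
  have hreal : ∀ u : ℝ, F u = ((F u).re : ℂ) := by
    intro u
    have h := hF.conj u (by simp; positivity)
    rw [Complex.conj_ofReal] at h
    exact (Complex.conj_eq_iff_re.1 h.symm).symm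
  have hRU : ∀ u : ℝ, (u : ℂ) ∈ U := by intro u; simp [hU, ha0]
  have hgk : ∀ u : ℝ, ∃ k : ℤ, (g u).im = 2 * Real.pi * k := by
    intro u
    have h1 : Complex.exp (g u) = Complex.exp (Real.log (F u).re : ℂ) := by
      rw [hg' _ (hRU u), ← Complex.ofReal_exp, Real.exp_log (hF.pos u)]
      exact hreal u
    obtain ⟨k, hk⟩ := exp_eq_im h1
    exact ⟨k, by simpa using hk⟩
  obtain ⟨k0, hk0⟩ := hgk 0
  set f : ℂ → ℂ := fun z => g z - 2 * Real.pi * k0 * Complex.I with hf
  have hfU : ∀ z ∈ U, Complex.exp (f z) = F z := by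
    intro z hz
    rw [hf]
    simp only
    rw [Complex.exp_sub, hg' z hz]
    have : Complex.exp (2 * Real.pi * k0 * Complex.I) = 1 := by
      rw [show (2 * Real.pi * k0 * Complex.I : ℂ) = k0 * (2 * Real.pi * Complex.I) by ring]
      exact Complex.exp_int_mul_two_pi_mul_I k0
    rw [this, div_one]
  have hfc : ContinuousOn f U := hgc.sub continuousOn_const
  have hsub : {z : ℂ | |z.im| ≤ Real.pi / 3} ⊆ U := fun z hz => lt_of_le_of_lt hz ha
  have hfim : ∀ u : ℝ, (f u).im = 0 := by
    intro u
    have hD : ∀ b ∈ (univ : Set ℝ), ∃ k : ℤ, (f b).im = 2 * Real.pi * k := by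
      intro b _
      obtain ⟨k, hk⟩ := hgk b
      refine ⟨k - k0, ?_⟩
      rw [hf]
      simp [hk]
      ring
    have hcont : ContinuousOn (fun b : ℝ => (f b).im) (univ : Set ℝ) :=
      Complex.continuous_im.comp_continuousOn (hfc.comp Complex.continuous_ofReal.continuousOn
        (fun b _ => hRU b))
    have h0 : (f ((0 : ℝ) : ℂ)).im = 0 := by
      rw [hf]
      simp only [Complex.sub_im]
      rw [hk0]
      simp
    rw [← h0]
    exact const_two_pi isPreconnected_univ hcont hD (mem_univ _) (mem_univ _)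
  refine ⟨f, hfc.mono hsub, fun z hz => hfU z (hsub hz), hfim, ?_⟩
  -- limit
  obtain ⟨K, c, hc0, hlim⟩ := hF.lim
  have hL0 := hF.L0
  -- for large u the values are in the right half plane
  have hsmall : Tendsto (fun u : ℝ => K * Real.exp (-(c * |u|))) atTop (𝓝 0) := by
    have : Tendsto (fun u : ℝ => c * |u|) atTop atTop :=
      (tendsto_abs_atTop_atTop).const_mul_atTop hc0
    have h2 := Real.tendsto_exp_neg_atTop_nhds_zero.comp this
    simpa using h2.const_mul K
  have hev : ∀ᶠ u : ℝ in atTop, K * Real.exp (-(c * |u|)) < L := hsmall.eventually (gt_mem_nhds hL0)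
  have hre : ∀ u : ℝ, K * Real.exp (-(c * |u|)) < L → ∀ b : ℝ, |b| ≤ Real.pi / 3 →
      0 < (F (u + b * Complex.I)).re := by
    intro u hu b hb
    have h1 := hlim (u + b * Complex.I) (by simpa using hb)
    have h2 : |(F (u + b * Complex.I) - L).re| ≤ K * Real.exp (-(c * |u|)) := by
      refine (Complex.abs_re_le_norm _).trans ?_
      simpa using h1
    have h3 := (abs_le.1 h2).1
    simp only [Complex.sub_re, Complex.ofReal_re] at h3
    linarith
  have harg : ∀ᶠ u : ℝ in atTop, (f (u + Real.pi / 3 * Complex.I)).im =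
      (F (u + Real.pi / 3 * Complex.I)).arg := by
    filter_upwards [hev] with u hu
    set D : ℝ → ℝ := fun b => (f (u + b * Complex.I)).im - (F (u + b * Complex.I)).arg with hDdef
    have hS : IsPreconnected (Icc (0 : ℝ) (Real.pi / 3)) := isPreconnected_Icc
    have hmem : ∀ b ∈ Icc (0 : ℝ) (Real.pi / 3), |b| ≤ Real.pi / 3 := by
      intro b hb
      rw [abs_le]
      constructor <;> linarith [hb.1, hb.2]
    have hin : ∀ b ∈ Icc (0 : ℝ) (Real.pi / 3), ((u : ℂ) + b * Complex.I) ∈ U := by
      intro b hb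
      apply hsub
      simpa using hmem b hb
    have hpath : Continuous (fun b : ℝ => (u : ℂ) + b * Complex.I) := by fun_prop
    have hc1 : ContinuousOn (fun b : ℝ => (f (u + b * Complex.I)).im) (Icc 0 (Real.pi / 3)) :=
      Complex.continuous_im.comp_continuousOn (hfc.comp hpath.continuousOn hin)
    have hc2 : ContinuousOn (fun b : ℝ => (F (u + b * Complex.I)).arg) (Icc 0 (Real.pi / 3)) := by
      intro b hb
      have hFb : ContinuousAt F (u + b * Complex.I) := (han _ (hin b hb)).1.continuousAt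
      have h1 : ContinuousAt Complex.arg (F (u + b * Complex.I)) :=
        Complex.continuousAt_arg (Or.inl (hre u hu b (hmem b hb)))
      have h2 : ContinuousAt (fun b : ℝ => (F (u + b * Complex.I)).arg) b := by
        apply ContinuousAt.comp (f := fun b : ℝ => F (u + b * Complex.I)) h1
        exact ContinuousAt.comp (f := fun b : ℝ => (u : ℂ) + b * Complex.I) hFb hpath.continuousAt
      exact h2.continuousWithinAt
    have hk : ∀ b ∈ Icc (0 : ℝ) (Real.pi / 3), ∃ k : ℤ, D b = 2 * Real.pi * k := by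
      intro b hb
      have hFne := (han _ (hin b hb)).2
      have h1 : Complex.exp (f (u + b * Complex.I)) = Complex.exp (Complex.log (F (u + b * Complex.I))) := by
        rw [Complex.exp_log hFne, hfU _ (hin b hb)]
      obtain ⟨k, hk⟩ := exp_eq_im h1
      exact ⟨k, by rw [hDdef]; simpa [Complex.log_im] using hk⟩
    have h00 : D 0 = 0 := by
      rw [hDdef]
      simp only [Complex.ofReal_zero, zero_mul, add_zero]
      rw [hfim u, hreal u, Complex.arg_ofReal_of_nonneg (hF.pos u).le]
      simp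
    have h01 : D (Real.pi / 3) = D 0 :=
      const_two_pi hS (hc1.sub hc2) hk ⟨by positivity, le_refl _⟩ ⟨le_refl _, by positivity⟩
    rw [h00, hDdef] at h01
    simp only at h01
    have h02 := sub_eq_zero.1 h01
    push_cast at h02
    exact h02
  have hFlim : Tendsto (fun u : ℝ => F (u + Real.pi / 3 * Complex.I)) atTop (𝓝 (L : ℂ)) := by
    rw [tendsto_iff_norm_sub_tendsto_zero]
    refine squeeze_zero (fun _ => norm_nonneg _) (fun u => ?_) hsmall
    have h1 := hlim (u + Real.pi / 3 * Complex.I) (by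
      simp
      rw [abs_of_pos (by positivity)])
    simpa using h1
  have hargL : Tendsto (fun u : ℝ => (F (u + Real.pi / 3 * Complex.I)).arg) atTop (𝓝 0) := by
    have h1 : ContinuousAt Complex.arg (L : ℂ) := Complex.continuousAt_arg (Or.inl (by simpa using hL0))
    have h2 := h1.tendsto.comp hFlim
    rw [Complex.arg_ofReal_of_nonneg hL0.le] at h2
    exact h2
  exact hargL.congr' (by filter_upwards [harg] with u hu; exact hu.symm)

end Q119
end W96CL
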