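import Pool.Agent.W119.CL.Log
import Pool.Agent.W119.CL.Ker
set_option autoImplicit false

open Polynomial Filter Topology MeasureTheory Set

namespace W96CL
namespace Q119

/-- a continuous function with limits at both infinities is bounded -/
lemma bdd_of_limits {G : ℝ → ℝ} (hG : Continuous G) (hev : ∀ v, G (-v) = G v) {l : ℝ}
    (hl : Tendsto G atTop (𝓝 l)) : ∃ M, ∀ v, |G v| ≤ M := by
  have h1 := (hl.abs).eventually (gt_mem_nhds (show |l| < |l| + 1 by linarith))
  obtain ⟨R, hR⟩ := eventually_atTop.1 h1
  have hcomp : IsCompact (Icc (-|R|) |R|) := isCompact_Icc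
  obtain ⟨C, hC⟩ := hcomp.exists_bound_of_continuousOn hG.continuousOn
  refine ⟨max C (|l| + 1), fun v => ?_⟩
  by_cases hv : |v| ≤ |R|
  · exact le_max_of_le_left (by simpa using hC v (abs_le.1 hv))
  · apply le_max_of_le_right
    have hv' : R ≤ |v| := (le_abs_self R).trans (not_le.1 hv).le
    have h2 := (hR |v| hv').le
    rcases abs_choice v with h | h
    · rw [h] at h2; exact h2
    · rw [h, hev] at h2; exact h2

end Q119

open Q119

theorem cl_quant (hst : S_strip) (hr : S_rs) (hl : S_lim) (hf : S_rfac) : S_quant := by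
  intro n θ t Q z0 hSQ
  have hpi := Real.pi_pos
  obtain ⟨hdiff, hconj, hpar, -, -, -, hnorm, -⟩ := hr n θ t Q z0 hSQ
  obtain ⟨⟨K0, hK0⟩, hspos, hsneg, hslt, -, hrpos, hrzero⟩ := hl n θ t Q z0 hSQ
  obtain ⟨ρ, hρS, hρfac, hρnorm⟩ := hf n θ t Q z0 hSQ
  have hz0 := hSQ.z0pos
  obtain ⟨f, hfc, hfexp, hfim, hflim⟩ := exists_log hρS
  set s : ℝ → ℝ := fun u => (sC n θ t u).re with hs
  have hreal0 : ∀ u : ℝ, |((u : ℂ)).im| ≤ Real.pi / 3 := by intro u; simp; positivity
  have hsd : ∀ u : ℝ, DifferentiableAt ℝ s u := by
    intro u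
    have h1 : DifferentiableAt ℂ (sC n θ t) (u : ℂ) := (hdiff u (hreal0 u)).1
    have h2 := h1.hasDerivAt.real_of_complex
    exact h2.differentiableAt
  have hsev : ∀ u, s (-u) = s u := by
    intro u
    have := (hpar u (hreal0 u)).1
    rw [hs]
    simp only
    push_cast
    rw [this]
  set G : ℝ → ℝ := fun v => Real.log (1 - s v) with hG
  have hGd : ∀ u : ℝ, DifferentiableAt ℝ G u := by
    intro u
    have h2 : (0 : ℝ) < 1 - s u := by
      have := hslt u
      simp only [hs]
      linarith
    exact DifferentiableAt.log (f := fun v => 1 - s v) ((differentiableAt_const _).sub (hsd u)) h2.ne'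
  have hGc : Continuous G := by
    rw [continuous_iff_continuousAt]
    exact fun u => (hGd u).continuousAt
  have hGev : ∀ v, G (-v) = G v := by
    intro v
    rw [hG]
    simp only
    rw [hsev]
  have hslim : Tendsto s atTop (𝓝 (-2)) := by
    rw [tendsto_iff_norm_sub_tendsto_zero]
    have hexp : Tendsto (fun u : ℝ => K0 * Real.exp (-|u|)) atTop (𝓝 0) := by
      have h2 := Real.tendsto_exp_neg_atTop_nhds_zero.comp tendsto_abs_atTop_atTop
      simpa using h2.const_mul K0
    refine squeeze_zero (fun _ => norm_nonneg _) (fun u => ?_) hexp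
    have h1 := (hK0 u (hreal0 u)).1
    have h2 : ‖s u - -2‖ ≤ ‖sC n θ t u + 2‖ := by
      have := Complex.abs_re_le_norm (sC n θ t u + 2)
      rw [Real.norm_eq_abs]
      simpa [hs] using this
    refine h2.trans ?_
    simpa using h1
  have hGlim : Tendsto G atTop (𝓝 (Real.log 3)) := by
    have h1 : Tendsto (fun u => 1 - s u) atTop (𝓝 3) := by
      have := hslim.const_sub 1
      norm_num at this
      exact this
    exact (Real.continuousAt_log (by norm_num)).tendsto.comp h1
  obtain ⟨M, hM⟩ := bdd_of_limits hGc hGev hGlim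
  -- the zero at z0
  have hspos' : ∀ u : ℝ, |u| < z0 → 0 < s u := hspos
  have hsneg' : ∀ u : ℝ, z0 < |u| → s u < 0 := hsneg
  have hsz : s z0 = 0 := by
    have hc : ContinuousAt s z0 := (hsd z0).continuousAt
    apply le_antisymm
    · have ht : Tendsto s (𝓝[>] z0) (𝓝 (s z0)) := hc.continuousWithinAt
      apply le_of_tendsto ht
      filter_upwards [self_mem_nhdsWithin] with u hu
      exact (hsneg' u (lt_of_lt_of_le hu (le_abs_self u))).le
    · have ht : Tendsto s (𝓝[<] z0) (𝓝 (s z0)) := hc.continuousWithinAt
      apply ge_of_tendsto ht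
      filter_upwards [self_mem_nhdsWithin, mem_nhdsWithin_of_mem_nhds (lt_mem_nhds hz0)] with u hu hu0
      exact (hspos' u (by rw [abs_of_pos hu0]; exact hu)).le
  have hGz : G z0 = 0 := by
    rw [hG]
    simp [hsz]
  obtain ⟨K, hKn, hK⟩ := G_bound hM hGz (hGd z0)
  -- the value of the argument of rho at z0
  have hImf : (f (z0 + Real.pi / 3 * Complex.I)).im =
      3 / (4 * Real.pi) * ∫ v : ℝ, G v / Real.sinh (3 * (v - z0) / 2) := by
    set D : ℝ → ℝ := fun b => (f (z0 + b * Complex.I)).im -
      ∫ v : ℝ, KI (3 * (z0 - v) / 2) (3 * b / 2) * G v with hD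
    have hDc : ContinuousOn D (Icc 0 (Real.pi / 3)) := by
      apply ContinuousOn.sub
      · apply Complex.continuous_im.comp_continuousOn
        apply hfc.comp (t := {z : ℂ | |z.im| ≤ Real.pi / 3})
          (f := fun b : ℝ => (z0 : ℂ) + b * Complex.I) (by fun_prop)
        intro b hb
        simp only [mem_ofPred_eq]
        simp
        rw [abs_le]
        constructor <;> linarith [hb.1, hb.2]
      · have h1 := cont_I hGc hK hKn
        exact (h1.comp (show Continuous (fun b : ℝ => 3 * b / 2) by fun_prop)).continuousOn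
    have hDk : ∀ b ∈ Ico (0 : ℝ) (Real.pi / 3), ∃ k : ℤ, D b = 2 * Real.pi * k := by
      intro b hb
      have hb' : |((z0 : ℂ) + b * Complex.I).im| < Real.pi / 3 := by
        simp
        rw [abs_of_nonneg hb.1]
        exact hb.2
      obtain ⟨hint, hval⟩ := hst ρ (Real.sqrt 3) hρS (z0 + b * Complex.I) hb'
      rw [← hfexp _ hb'.le] at hval
      obtain ⟨k, hk⟩ := exp_eq_im hval
      refine ⟨k, ?_⟩
      rw [← hk, hD]
      simp only
      congr 1
      have h1 : (∫ v : ℝ, kc ((z0 : ℂ) + b * Complex.I - v) *
          (Real.log (‖ρ (v + Real.pi / 3 * Complex.I)‖ ^ 2) : ℂ)).im =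
          ∫ v : ℝ, (kc ((z0 : ℂ) + b * Complex.I - v) *
          (Real.log (‖ρ (v + Real.pi / 3 * Complex.I)‖ ^ 2) : ℂ)).im := by
        have := Complex.imCLM.integral_comp_comm hint
        simpa using this.symm
      rw [h1]
      apply integral_congr_ae
      refine Eventually.of_forall fun v => ?_
      simp only
      rw [hρnorm v, Complex.im_mul_ofReal]
      have h2 : ((z0 : ℂ) + b * Complex.I - v) = ((z0 - v : ℝ) : ℂ) + b * Complex.I := by
        push_cast; ring
      rw [h2, kc_im]
    have hD0 : D 0 = 0 := by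
      rw [hD]
      simp only [Complex.ofReal_zero, zero_mul, add_zero, hfim z0]
      simp [KI]
    have hDI : ∀ b ∈ Ico (0 : ℝ) (Real.pi / 3), D b = 0 := by
      intro b hb
      rw [← hD0]
      exact const_two_pi isPreconnected_Ico (hDc.mono Ico_subset_Icc_self) hDk hb
        ⟨le_refl _, by positivity⟩
    have hDend : D (Real.pi / 3) = 0 := by
      have hmem : Real.pi / 3 ∈ Icc (0 : ℝ) (Real.pi / 3) := right_mem_Icc.2 (by positivity)
      have h1 : Tendsto D (𝓝[Ico (0 : ℝ) (Real.pi / 3)] (Real.pi / 3)) (𝓝 (D (Real.pi / 3))) :=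
        (hDc _ hmem).mono Ico_subset_Icc_self
      have hne : (𝓝[Ico (0 : ℝ) (Real.pi / 3)] (Real.pi / 3)).NeBot := by
        rw [← mem_closure_iff_nhdsWithin_neBot, closure_Ico (by positivity)]
        exact hmem
      have h2 : Tendsto D (𝓝[Ico (0 : ℝ) (Real.pi / 3)] (Real.pi / 3)) (𝓝 0) := by
        apply tendsto_const_nhds.congr'
        filter_upwards [self_mem_nhdsWithin] with b hb
        exact (hDI b hb).symm
      exact tendsto_nhds_unique h1 h2
    rw [hD] at hDend
    simp only at hDend
    have h3 := sub_eq_zero.1 hDend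
    push_cast at h3
    rw [h3, ← integral_const_mul]
    apply integral_congr_ae
    refine Eventually.of_forall fun v => ?_
    simp only
    rw [show 3 * (Real.pi / 3) / 2 = Real.pi / 2 by ring, KI_half]
    ring
  have hGnn : 0 ≤ ∫ v : ℝ, G v / Real.sinh (3 * (v - z0) / 2) := by
    apply int_nonneg hGc hz0 hK hKn hGev
    · intro v hv
      have h1 := hspos' v hv
      have h2 := hslt v
      apply Real.log_nonpos
      · simp only [hs]; linarith
      · linarith
    · intro v hv
      have h1 := hsneg' v hv
      apply Real.log_nonneg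
      linarith
  -- the total argument
  set C := Real.cos (3 * θ / 2) with hC
  have hC0 : 0 < C := by
    apply Real.cos_pos_of_mem_Ioo
    constructor
    · linarith [hSQ.th0]
    · linarith [hSQ.th1]
  set A : ℝ → ℝ := fun u => n * (2 * Real.arctan (C / Real.sinh (3 * u / 2))) +
    Real.arccos (Real.tanh (3 * u / 2)) + (f (u + Real.pi / 3 * Complex.I)).im with hA
  have hrep : ∀ u : ℝ, 0 < u → (rC n θ Q (u + Real.pi / 3 * Complex.I)).re =
      Real.exp (f (u + Real.pi / 3 * Complex.I)).re * Real.cos (A u) := by
    intro u hu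
    have hb : |((u : ℂ) + Real.pi / 3 * Complex.I).im| ≤ Real.pi / 3 := by
      simp
      rw [abs_of_pos (by positivity)]
    have h1 := hρfac _ hb
    rw [tanh_quarter, RR_exp hu, ← hfexp _ hb, ← Complex.exp_nat_mul, ← Complex.exp_add,
      ← Complex.exp_add] at h1
    rw [h1, Complex.exp_re]
    have hAu : A u = (n : ℝ) * (2 * Real.arctan (Real.cos (3 * θ / 2) / Real.sinh (3 * u / 2))) +
      Real.arccos (Real.tanh (3 * u / 2)) + (f (u + Real.pi / 3 * Complex.I)).im := by
      rw [hA]
    rw [hAu]
    generalize 2 * Real.arctan (Real.cos (3 * θ / 2) / Real.sinh (3 * u / 2)) = β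
    generalize Real.arccos (Real.tanh (3 * u / 2)) = α
    generalize f (u + Real.pi / 3 * Complex.I) = w
    congr 1
    · simp
    · congr 1
      simp
      ring
  have hAc : ContinuousOn A (Ici z0) := by
    have hin : ∀ u ∈ Ici z0, Real.sinh (3 * u / 2) ≠ 0 := by
      intro u hu
      have : 0 < Real.sinh (3 * u / 2) := Real.sinh_pos_iff.2 (by
        have : z0 ≤ u := hu
        linarith)
      exact this.ne'
    have h1 : ContinuousOn (fun u => (n : ℝ) * (2 * Real.arctan (C / Real.sinh (3 * u / 2)))) (Ici z0) := by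
      apply ContinuousOn.mul continuousOn_const
      apply ContinuousOn.mul continuousOn_const
      apply Real.continuous_arctan.comp_continuousOn
      exact continuousOn_const.div (by fun_prop) hin
    have h2 : ContinuousOn (fun u => Real.arccos (Real.tanh (3 * u / 2))) (Ici z0) := by
      apply Continuous.continuousOn
      apply Real.continuous_arccos.comp
      have : (fun u : ℝ => Real.tanh (3 * u / 2)) = fun u => Real.sinh (3 * u / 2) / Real.cosh (3 * u / 2) := by
        funext u
        rw [Real.tanh_eq_sinh_div_cosh]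
      rw [this]
      apply Continuous.div (by fun_prop) (by fun_prop)
      intro u
      exact (Real.cosh_pos _).ne'
    have h3 : ContinuousOn (fun u : ℝ => (f (u + Real.pi / 3 * Complex.I)).im) (Ici z0) := by
      apply Complex.continuous_im.comp_continuousOn
      apply hfc.comp (t := {z : ℂ | |z.im| ≤ Real.pi / 3})
        (f := fun u : ℝ => (u : ℂ) + Real.pi / 3 * Complex.I) (by fun_prop)
      intro u hu
      simp only [mem_ofPred_eq]
      simp
      rw [abs_of_pos (by positivity)]
    exact (h1.add h2).add h3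
  have hAlim : Tendsto A atTop (𝓝 0) := by
    have hlin : Tendsto (fun u : ℝ => 3 * u / 2) atTop atTop := by
      have : (fun u : ℝ => 3 * u / 2) = fun u => (3 / 2) * u := by funext u; ring
      rw [this]
      exact tendsto_id.const_mul_atTop (by norm_num)
    have hsinh : Tendsto (fun u : ℝ => Real.sinh (3 * u / 2)) atTop atTop := by
      have h1 : Tendsto Real.sinh atTop atTop := by
        apply tendsto_atTop_mono' atTop _ tendsto_id
        filter_upwards [eventually_ge_atTop (0 : ℝ)] with x hx
        exact Real.self_le_sinh_iff.2 hx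
      exact h1.comp hlin
    have h1 : Tendsto (fun u => (n : ℝ) * (2 * Real.arctan (C / Real.sinh (3 * u / 2)))) atTop (𝓝 0) := by
      have h2 : Tendsto (fun u : ℝ => C / Real.sinh (3 * u / 2)) atTop (𝓝 0) :=
        hsinh.const_div_atTop C
      have h3 := (Real.continuous_arctan.tendsto 0).comp h2
      rw [Real.arctan_zero] at h3
      have h4 := (h3.const_mul 2).const_mul (n : ℝ)
      simpa using h4
    have h2 : Tendsto (fun u => Real.arccos (Real.tanh (3 * u / 2))) atTop (𝓝 0) := by
      have h3 : Tendsto Real.tanh atTop (𝓝 1) := by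
        have h4 : Tendsto (fun x : ℝ => 1 - Real.exp (-x) * (1 / Real.cosh x)) atTop (𝓝 1) := by
          have h5 : Tendsto (fun x : ℝ => Real.exp (-x) * (1 / Real.cosh x)) atTop (𝓝 0) := by
            apply squeeze_zero' (g := fun x : ℝ => Real.exp (-x))
            · exact Eventually.of_forall fun x => by
                have := Real.cosh_pos x
                positivity
            · refine Eventually.of_forall fun x => ?_
              apply mul_le_of_le_one_right (Real.exp_pos _).le
              rw [div_le_one (Real.cosh_pos x)]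
              exact Real.one_le_cosh x
            · exact Real.tendsto_exp_neg_atTop_nhds_zero
          simpa using h5.const_sub 1
        refine h4.congr fun x => ?_
        rw [Real.tanh_eq_sinh_div_cosh]
        have := (Real.cosh_pos x).ne'
        rw [← Real.cosh_sub_sinh]
        field_simp
        ring
      have h4 := (Real.continuous_arccos.tendsto 1).comp (h3.comp hlin)
      rw [Real.arccos_one] at h4
      exact h4
    have h3 := (h1.add h2).add hflim
    simpa using h3
  have hcospos : ∀ u, z0 < u → 0 < Real.cos (A u) := by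
    intro u hu
    have h1 := hrpos u hu
    rw [hrep u (hz0.trans hu)] at h1
    exact (mul_pos_iff_of_pos_left (Real.exp_pos _)).1 h1
  have hcos0 : Real.cos (A z0) = 0 := by
    have h1 := hrzero
    rw [hrep z0 hz0] at h1
    rcases mul_eq_zero.1 h1 with h | h
    · exact absurd h (Real.exp_pos _).ne'
    · exact h
  have hfin : 0 ≤ A z0 := by
    rw [hA]
    simp only
    rw [hImf]
    have h1 : 0 ≤ Real.arctan (C / Real.sinh (3 * z0 / 2)) := by
      rw [Real.arctan_nonneg]
      have : 0 < Real.sinh (3 * z0 / 2) := Real.sinh_pos_iff.2 (by linarith)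
      positivity
    have h2 := Real.arccos_nonneg (Real.tanh (3 * z0 / 2))
    positivity
  have hfinal := top_arg hAc hAlim hcospos hcos0 hfin
  rw [hA] at hfinal
  simp only at hfinal
  rw [hImf] at hfinal
  exact hfinal

end W96CL
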